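import Pool.Agent.H87.SN.Targets

/-!
# Row GRW of snk_modules: growth of `W` in `ρ` (helper79)
-/

set_option autoImplicit false

open MeasureTheory Metric Set Filter Topology
open Pool.Agent.H87.SN
open scoped ContDiff RealInnerProductSpace

namespace Pool.Agent.H79.SN

theorem pf_GRW : T_GRW := by
  intro W hpos hdiff hder s t hs hst
  have ht : 0 < t := lt_of_lt_of_le hs hst
  have hd : ∀ (c x : ℝ), 0 < x →
      HasDerivAt (fun y => Real.log (W y) + c * Real.log y) (deriv W x / W x + c * x⁻¹) x := by
    intro c x hx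
    exact ((hdiff x hx).hasDerivAt.log (hpos x hx).ne').add
      ((Real.hasDerivAt_log hx.ne').const_mul c)
  have hcv : Convex ℝ (Ioi (0 : ℝ)) := convex_Ioi 0
  have key : ∀ x : ℝ, 0 < x → |deriv W x / W x| ≤ 3 / 2 * x⁻¹ := by
    intro x hx
    have h1 := hder x hx
    have h2 := hpos x hx
    rw [abs_mul, abs_of_pos hx] at h1
    rw [abs_div, abs_of_pos h2, div_le_iff₀ h2]
    have h3 : |deriv W x| = x⁻¹ * (x * |deriv W x|) := by
      field_simp
    rw [h3]
    calc x⁻¹ * (x * |deriv W x|) ≤ x⁻¹ * (3 / 2 * W x) :=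
          mul_le_mul_of_nonneg_left h1 (inv_nonneg.2 hx.le)
      _ = 3 / 2 * x⁻¹ * W x := by ring
  have hmono : MonotoneOn (fun y => Real.log (W y) + (3 / 2) * Real.log y) (Ioi 0) := by
    refine monotoneOn_of_deriv_nonneg hcv ?_ ?_ ?_
    · intro x hx
      exact (hd (3 / 2) x hx).continuousAt.continuousWithinAt
    · intro x hx
      rw [interior_Ioi] at hx
      exact (hd (3 / 2) x hx).differentiableAt.differentiableWithinAt
    · intro x hx
      rw [interior_Ioi] at hx
      rw [(hd (3 / 2) x hx).deriv]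
      have := (abs_le.1 (key x hx)).1
      linarith
  have hanti : AntitoneOn (fun y => Real.log (W y) + (-(3 / 2)) * Real.log y) (Ioi 0) := by
    refine antitoneOn_of_deriv_nonpos hcv ?_ ?_ ?_
    · intro x hx
      exact (hd (-(3 / 2)) x hx).continuousAt.continuousWithinAt
    · intro x hx
      rw [interior_Ioi] at hx
      exact (hd (-(3 / 2)) x hx).differentiableAt.differentiableWithinAt
    · intro x hx
      rw [interior_Ioi] at hx
      rw [(hd (-(3 / 2)) x hx).deriv]
      have := (abs_le.1 (key x hx)).2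
      linarith
  have hts : 0 < t / s := div_pos ht hs
  have hpw : 0 < (t / s) ^ (3 / 2 : ℝ) := Real.rpow_pos_of_pos hts _
  have hlog : Real.log ((t / s) ^ (3 / 2 : ℝ)) = 3 / 2 * (Real.log t - Real.log s) := by
    rw [Real.log_rpow hts, Real.log_div ht.ne' hs.ne']
  have h1 := hmono hs ht hst
  have h2 := hanti hs ht hst
  simp only at h1 h2
  constructor
  · rw [← Real.log_le_log_iff (hpos t ht) (mul_pos (hpos s hs) hpw),
      Real.log_mul (hpos s hs).ne' hpw.ne', hlog]
    linarith
  · rw [← Real.log_le_log_iff (hpos s hs) (mul_pos (hpos t ht) hpw),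
      Real.log_mul (hpos t ht).ne' hpw.ne', hlog]
    linarith

end Pool.Agent.H79.SN
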